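import Pool.Agent.P.MP_e35cb8_ag.Ms.Final

set_option autoImplicit false

namespace Pool.Agent.Results.MP_e35cb8_ag.MetastableRange

/-- Over an infinite field, the ideal of an affine `d`-space embedded in affine `N`-space is
generated by `N - d` polynomials as soon as `3 d + 4 ≤ 2 N`. -/
theorem result (k : Type) [Field k] [Infinite k] (d N : ℕ) (h : 3 * d + 4 ≤ 2 * N)
    (α : MvPolynomial (Fin N) k →ₐ[k] MvPolynomial (Fin d) k) (hα : Function.Surjective α) :
    ∃ f : Fin (N - d) → MvPolynomial (Fin N) k, Ideal.span (Set.range f) = RingHom.ker α := by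
  obtain ⟨n, rfl⟩ : ∃ n, N = n + d := ⟨N - d, by omega⟩
  rw [Nat.add_sub_cancel]
  exact Pool.Agent.P.MP_e35cb8_ag.Ms.main_inf (by omega) α hα

end Pool.Agent.Results.MP_e35cb8_ag.MetastableRange
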